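import Pool.Agent.T2h21.Tip.Wedge
import Pool.Agent.Y450.Lens.Main

/-! No squares near the vertical segment that cuts off the tip of a wedge. -/

set_option autoImplicit false
open Set

namespace Pool.Agent.T2h21.Tip

open Pool.Agent.Y450.Stab Pool.Agent.Y450.Lens

variable {T B : ℝ → ℝ} {L : ℝ}

/-- there is no square with its vertices on the two graphs over `(0, δ)` -/
def NoSq (T B : ℝ → ℝ) (δ : ℝ) : Prop := ∀ x d l : ℝ, 0 < l → 0 < x → 0 < x + d → x + l < δ →
  x + d + l < δ → T (x + l) = T x + d → B (x + d) = T x - l → B (x + d + l) = T x + d - l → False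

theorem no_cap (hT : Lip L T) (hB : Lip L B) (L0 : 0 ≤ L) (L1 : L ≤ 1 / 5) (T0 : T 0 = 0)
    (B0 : B 0 = 0) (hle : ∀ x, B x ≤ T x) (hlt : ∀ x, 0 < x → B x < T x) {δ : ℝ}
    (hsq : NoSq T B δ) {x y p q : ℝ} (hx : 0 < x) (hxδ : 2 * x < δ) (hp : 0 < p)
    (hTR : T (x + p) = y + q) (hBR : B (x + p + q) = y + q - p) (hTL : y ≤ T x)
    (hBL : B (x + q) ≤ y - p) : False := by
  choose dd ll hS using fun x => ESq.ex hT hB L0 (by linarith : L < 1) (hle x)
  have st : ∀ x r : ℝ, 0 ≤ r → |dd (x + r) - dd x| + |ll (x + r) - ll x| ≤ 5 * r := by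
    intro x r hr
    have h := (hS x).steps hT hB L0 (by linarith) (hS (x + r)) hr
    have n1 := abs_nonneg (dd (x + r) - dd x)
    have n2 := abs_nonneg (ll (x + r) - ll x)
    nlinarith
  have cd : Continuous dd := cont_of_steps (K := 5) fun x r hr => by
    have := st x r hr
    linarith [abs_nonneg (ll (x + r) - ll x)]
  have cl : Continuous ll := cont_of_steps (K := 5) fun x r hr => by
    have := st x r hr
    linarith [abs_nonneg (dd (x + r) - dd x)]
  have cT := hT.cont
  have cB := hB.cont
  have cH : Continuous fun x => YY T dd ll x - B (XX dd ll x) := by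
    unfold YY XX
    fun_prop
  -- bound of the size
  have hl : ∀ z, 0 < z → ll z ≤ 5 / 12 * z := by
    intro z hz
    have h1 := (hS z).l_le hT hB L0
    have t1 := (abs_le.1 (hT z 0)).2
    have t2 := (abs_le.1 (hB z 0)).1
    rw [T0, sub_zero, sub_zero, abs_of_pos hz] at t1
    rw [B0, sub_zero, sub_zero, abs_of_pos hz] at t2
    have l0 := (hS z).l0
    have h2 : L ^ 2 ≤ 1 / 25 := by nlinarith
    have h3 : 24 / 25 * ll z ≤ (1 - L ^ 2) * ll z := mul_le_mul_of_nonneg_right (by linarith) l0
    have h4 : L * z ≤ 1 / 5 * z := mul_le_mul_of_nonneg_right L1 hz.le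
    linarith
  have lp : ∀ z, 0 < z → 0 < ll z := by
    intro z hz
    rcases lt_or_eq_of_le (hS z).l0 with h | h
    · exact h
    · exfalso
      have h2 := (hS z).h2
      have hd := (hS z).d_le hT
      rw [← h, mul_zero] at hd
      have hd' := abs_nonpos_iff.1 hd
      rw [← h, hd', add_zero, sub_zero] at h2
      linarith [hlt z hz]
  -- no zero of the height
  have hne : ∀ z, 0 < z → 2 * z < δ → YY T dd ll z - B (XX dd ll z) ≠ 0 := by
    intro z hz hzδ h0
    have h1 := hl z hz
    have hd := abs_le.1 ((hS z).d_le hT)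
    have h3 : L * ll z ≤ 1 / 5 * ll z := mul_le_mul_of_nonneg_right L1 (lp z hz).le
    refine hsq z (dd z) (ll z) (lp z hz) hz (by linarith) (by linarith) (by linarith) (hS z).h3
      (hS z).h2 ?_
    unfold YY XX at h0
    linarith
  -- the height is nonpositive at `x`
  have hx0 : YY T dd ll x - B (XX dd ll x) ≤ 0 := by
    have S := hS x
    set l := ll x with hl'
    set d := dd x with hd'
    set r := T x - y with hr
    have r0 : 0 ≤ r := by rw [hr]; linarith
    have l0 : 0 ≤ l := S.l0
    have e3 := S.h3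
    have e2 := S.h2
    -- `φ p ≥ (1 - L) r`
    have b1 := (abs_le.1 (hB (x + q - r) (x + q))).2
    rw [show x + q - r - (x + q) = -r by ring, abs_neg, abs_of_nonneg r0] at b1
    have f1 : (1 - L) * r ≤ T x - p - B (x + (q - r)) := by
      rw [show x + (q - r) = x + q - r by ring]
      rw [hr] at b1 ⊢
      nlinarith
    have Td : T (x + p) - T x = q - r := by rw [hTR, hr]; ring
    -- compare `l` and `p`
    have t1 := hT (x + l) (x + p)
    rw [show x + l - (x + p) = l - p by ring, e3, hTR] at t1
    have t1' : |d - (q - r)| ≤ L * |l - p| := by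
      rw [show d - (q - r) = T x + d - (y + q) by rw [hr]; ring]; exact t1
    have b2 := hB (x + d) (x + (q - r))
    rw [show x + d - (x + (q - r)) = d - (q - r) by ring, e2] at b2
    have b2' := b2.trans (mul_le_mul_of_nonneg_left t1' L0)
    have b2'' := abs_le.1 b2'
    have L2 : L * (L * |l - p|) ≤ 1 / 25 * |l - p| := by
      have := abs_nonneg (l - p)
      nlinarith [mul_nonneg L0 this]
    have hlp : p ≤ l ∧ 20 / 26 * r ≤ l - p := by
      have a1 : l - p + L * (L * |l - p|) ≥ (1 - L) * r := by linarith [b2''.1, b2''.2]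
      have Lr : 4 / 5 * r ≤ (1 - L) * r := mul_le_mul_of_nonneg_right (by linarith) r0
      have : 0 ≤ l - p := by
        by_contra hneg
        push Not at hneg
        rw [abs_of_neg hneg] at L2 a1
        nlinarith
      rw [abs_of_nonneg this] at L2 a1
      constructor <;> nlinarith
    have hpl : 0 ≤ l - p := by linarith [hlp.1]
    rw [abs_of_nonneg hpl] at t1' b2'
    -- the height at `l`
    have b3 := hB (x + d + l) (x + p + q)
    have b4 : |x + d + l - (x + p + q)| ≤ (l - p) + (L * (l - p) + r) := by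
      have t := abs_le.1 t1'
      rw [abs_le]; constructor <;> linarith [t.1, t.2]
    have b5 := abs_le.1 (b3.trans (mul_le_mul_of_nonneg_left b4 L0))
    have t := abs_le.1 t1'
    unfold YY XX
    rw [hBR] at b5
    have Lr : L * r ≤ 1 / 5 * r := mul_le_mul_of_nonneg_right L1 r0
    have Ll : L * (l - p) ≤ 1 / 5 * (l - p) := mul_le_mul_of_nonneg_right L1 hpl
    have LLl : L * (L * (l - p)) ≤ 1 / 25 * (l - p) := by nlinarith [mul_nonneg L0 hpl]
    have Tx : T x = y + r := by rw [hr]; ring
    nlinarith [hlp.2, b5.1, b5.2, t.1, t.2]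
  have h00 : YY T dd ll 0 - B (XX dd ll 0) = 0 := by
    have S0 := hS 0
    have l0 : ll 0 = 0 := by
      have h1 := S0.l_le hT hB L0
      rw [T0, B0, sub_self] at h1
      have h2 := S0.l0
      have h3 : (0:ℝ) < 1 - L ^ 2 := by nlinarith
      rcases (mul_nonpos_iff.1 h1) with h4 | h4
      · linarith [h4.2]
      · linarith [h4.1]
    have d0 : dd 0 = 0 := by
      have := S0.d_le hT
      rw [l0, mul_zero] at this
      exact abs_nonpos_iff.1 this
    simp only [YY, XX, l0, d0, add_zero, sub_zero, T0, B0]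
  refine no_neg hT hB L0 L1 (by rw [T0, B0]) hx (fun z _ => hS z) (hlt x hx) fun z hz => ?_
  by_contra hpos
  push Not at hpos
  have hz0 : 0 < z := by
    rcases lt_or_eq_of_le hz.1 with h | h
    · exact h
    · rw [← h, h00] at hpos; exact absurd hpos (lt_irrefl _)
  obtain ⟨w, hw, e⟩ := intermediate_value_Icc' hz.2 cH.continuousOn
    (show (0:ℝ) ∈ Icc _ _ from ⟨hx0, hpos.le⟩)
  exact hne w (by linarith [hw.1]) (by linarith [hw.2]) e

end Pool.Agent.T2h21.Tip
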