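import Pool.Agent.Y450.Lens.Path

/-! Squares near the tip of a wedge between two graphs with small Lipschitz constant: if there is no
square with its vertices on the two graphs then there is none on the wedge cut off by a vertical
segment. -/

set_option autoImplicit false
open Set

namespace Pool.Agent.T2h21.Tip

open Pool.Agent.Y450.Stab Pool.Agent.Y450.Lens

variable {T B : ℝ → ℝ} {L : ℝ}

/-- the height of the last vertex is negative on `(0, x1]`: impossible -/
theorem no_neg (hT : Lip L T) (hB : Lip L B) (L0 : 0 ≤ L) (L1 : L ≤ 1 / 5) (T0 : T 0 = B 0)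
    {dd ll : ℝ → ℝ} {x1 : ℝ} (hx1 : 0 < x1) (hS : ∀ x ∈ Icc 0 x1, ESq T B x (dd x) (ll x))
    (hlt : B x1 < T x1)
    (hH : ∀ x ∈ Icc 0 x1, YY T dd ll x - B (XX dd ll x) ≤ 0) : False := by
  have h := path_area hT hB L0 (by linarith) hB L0 (by linarith) (σ := -1) (Or.inr rfl) hx1.le hS
    (fun x hx => by have := hH x hx; linarith)
  have S0 := hS 0 ⟨le_rfl, hx1.le⟩
  have l0 : ll 0 = 0 := by
    have h1 := S0.l_le hT hB L0
    rw [T0, sub_self] at h1
    have h2 := S0.l0
    have h3 : (0:ℝ) < 1 - L ^ 2 := by nlinarith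
    have h4 := (mul_nonpos_iff.1 h1)
    rcases h4 with h4 | h4
    · linarith [h4.2]
    · linarith [h4.1]
  have d0 : dd 0 = 0 := by
    have := S0.d_le hT
    rw [l0, mul_zero] at this
    exact abs_nonpos_iff.1 this
  have S1 := hS x1 ⟨hx1.le, le_rfl⟩
  have e0 : YY T dd ll 0 - B (XX dd ll 0) = 0 := by
    simp only [YY, XX, l0, d0, add_zero, sub_zero, T0, sub_self]
  have p0 : Pot T B 0 (dd 0) (ll 0) = 0 := by
    rw [l0, d0]; unfold Pot; simp
  rw [e0, p0] at h
  have hl := S1.pot_lower hT hB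
  have hh := abs_le.1 (S1.h_le hT hB)
  have hneg := hH x1 ⟨hx1.le, le_rfl⟩
  have l1 : 0 ≤ ll x1 := S1.l0
  have lpos : 0 < ll x1 := by
    rcases lt_or_eq_of_le l1 with h | h
    · exact h
    · exfalso
      have h2 := S1.h2
      have hd := S1.d_le hT
      rw [← h, mul_zero] at hd
      have hd' := abs_nonpos_iff.1 hd
      rw [← h, hd', add_zero, sub_zero] at h2
      linarith
  have eY : YY T dd ll x1 - B (XX dd ll x1) = T x1 + dd x1 - ll x1 - B (x1 + dd x1 + ll x1) := rfl
  rw [eY] at h hneg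
  set v := T x1 + dd x1 - ll x1 - B (x1 + dd x1 + ll x1) with hv
  set l := ll x1 with hl'
  set P := Pot T B x1 (dd x1) l with hP
  have q0 : 0 < 1 - L := by linarith
  have h1 : P ≤ v ^ 2 / (2 * (1 - L)) := by
    have e : (0 ^ 2 + v ^ 2) / (2 * (1 - L)) = v ^ 2 / (2 * (1 - L)) := by ring
    rw [e] at h
    linarith
  have h2 : v ^ 2 / (2 * (1 - L)) ≤ v ^ 2 * (5 / 8) := by
    rw [div_le_iff₀ (by linarith)]
    nlinarith [sq_nonneg v]
  have h3 : -(2 / 5 * l) ≤ v := by nlinarith [hh.1]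
  have h4 : v ^ 2 ≤ (2 / 5 * l) ^ 2 := by
    apply sq_le_sq' <;> nlinarith
  nlinarith [mul_pos lpos lpos]

end Pool.Agent.T2h21.Tip
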